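import Pool.Agent.Helper39_Simp.Split

/-!
# Change of weights along an integral grading
-/

set_option autoImplicit false
set_option linter.unusedVariables false
set_option linter.unusedSectionVars false

namespace Pool.Agent.Helper30_Simp.H39

open PowerSeries Finset Pool.Agent.Helper6_Mono Pool.Agent.Helper30_Simp

variable {k : Type} [Field k] {σ : Type} [Fintype σ] {W : Type} [AddCommGroup W]
  {g : MvPolynomial σ k}

theorem tq_map {W' : Type} [AddCommGroup W'] (V : TS W g) (ψ : W →+ W') (V' : TS W' g)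
    (hU : V'.U = V.U) (hJ : V'.J = V.J) (hν : ∀ i ∈ V.U, ψ (V.ν i) = V'.ν i)
    (P : (S : Type) → [CommRing S] → [Algebra k S] → S → Prop)
    (hP : ∀ {S S' : Type} [CommRing S] [Algebra k S] [CommRing S'] [Algebra k S']
      (φ : S →ₐ[k] S') (c : Chr W S') (s : S), P S s → P S' (chr c V.μ * φ s))
    (hP' : ∀ {S S' : Type} [CommRing S] [Algebra k S] [CommRing S'] [Algebra k S']
      (φ : S →ₐ[k] S') (c : Chr W' S') (s : S), P S s → P S' (chr c V'.μ * φ s)) :
    OIso ((TQ V P hP).mapWt ψ (fun _ => map_zero ψ)) (TQ V' P hP') := by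
  classical
  refine OIso.mk' (fun S _ _ x => ⟨x.1, fun i => by rw [hU]; exact x.2.1 i, x.2.2⟩)
    (fun S _ _ y => ⟨y.1, fun i => by rw [← hU]; exact y.2.1 i, y.2.2⟩)
    (fun S _ _ x => rfl) (fun S _ _ y => rfl) ?_ ?_
  · intro S S' _ _ _ _ φ c x
    refine Subtype.ext (funext fun l => ?_)
    show chr c (ψ (V.ν l)) * φ (x.1 l) = chr c (V'.ν l) * φ (x.1 l)
    by_cases hl : l ∈ V.U
    · rw [hν l hl]
    · rw [(x.2.1 l).2 hl, map_zero, mul_zero, mul_zero]
  · intro S _ _ x b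
    show (if b ∈ V'.J then x.1 b else 0) = if b ∈ V.J then x.1 b else 0
    rw [hJ]

theorem bezout {ι : Type} [Fintype ι] (δ : ι → ℤ) :
    ∃ (d : ℤ) (a δ' : ι → ℤ), (∀ i, δ i = δ' i * d) ∧ ∑ i, a i * δ i = d ∧
      (d ≠ 0 → ∑ i, a i * δ' i = 1) := by
  obtain ⟨d, hd⟩ := (inferInstance : (Ideal.span (Set.range δ)).IsPrincipal).principal
  have h1 : d ∈ Ideal.span (Set.range δ) := by
    rw [hd]
    exact Submodule.mem_span_singleton_self d
  obtain ⟨a, ha⟩ := Ideal.mem_span_range_iff_exists_fun.1 h1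
  have h2 : ∀ i, ∃ e, δ i = e * d := by
    intro i
    have : δ i ∈ Submodule.span ℤ {d} := by
      rw [← hd]
      exact Ideal.subset_span ⟨i, rfl⟩
    obtain ⟨e, he⟩ := Submodule.mem_span_singleton.1 this
    exact ⟨e, he.symm⟩
  choose δ' hδ' using h2
  refine ⟨d, a, δ', hδ', ha, fun hd0 => ?_⟩
  have h3 : (∑ i, a i * δ' i) * d = 1 * d := by
    rw [Finset.sum_mul, one_mul]
    calc ∑ i, a i * δ' i * d = ∑ i, a i * δ i :=
          Finset.sum_congr rfl fun i _ => by rw [hδ' i, mul_assoc]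
      _ = d := ha
  exact mul_right_cancel₀ hd0 h3

/-- the invertible function of degree one -/
noncomputable def vfn (V : TS W g) (P : (S : Type) → [CommRing S] → [Algebra k S] → S → Prop)
    (hP : ∀ {S S' : Type} [CommRing S] [Algebra k S] [CommRing S'] [Algebra k S']
      (φ : S →ₐ[k] S') (c : Chr W S') (s : S), P S s → P S' (chr c V.μ * φ s))
    (a : V.U → ℤ) : NF (TQ V P hP).F (∑ i : V.U, a i • V.ν i) :=
  ⟨fun {S} _ _ x => ((∏ i : V.U, ((x.2.1 i).1 i.2).unit ^ a i : Sˣ) : S),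
    fun {S S'} _ _ _ _ φ c x => by
      have h1 : ∀ i : V.U, ((((TQ V P hP).F.tw φ c x).2.1 i).1 i.2).unit
          = c (Multiplicative.ofAdd (V.ν i)) * Units.map (φ : S →* S') ((x.2.1 i).1 i.2).unit := by
        intro i
        apply Units.ext
        rfl
      show ((∏ i : V.U, ((((TQ V P hP).F.tw φ c x).2.1 i).1 i.2).unit ^ a i : S'ˣ) : S')
        = chr c (∑ i : V.U, a i • V.ν i) * φ ((∏ i : V.U, ((x.2.1 i).1 i.2).unit ^ a i : Sˣ) : S)
      have h2 : (∏ i : V.U, ((((TQ V P hP).F.tw φ c x).2.1 i).1 i.2).unit ^ a i : S'ˣ)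
          = c (Multiplicative.ofAdd (∑ i : V.U, a i • V.ν i))
            * Units.map (φ : S →* S') (∏ i : V.U, ((x.2.1 i).1 i.2).unit ^ a i) := by
        rw [ofAdd_sum, map_prod, map_prod, ← Finset.prod_mul_distrib]
        refine Finset.prod_congr rfl fun i _ => ?_
        rw [h1 i, mul_zpow, ofAdd_zsmul, map_zpow, map_zpow]
      rw [h2]
      rfl⟩

variable {R : Type*} [CommRing R] {L : Rˣ}

theorem weights_aux (χ : SInv k (fun _ : σ => (0 : QZ)) L) (V V' : TS QZ g)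
    (hU : V'.U = V.U) (hJ : V'.J = V.J) (hg : ∀ α ∈ g.support, ∀ i, α i ≠ 0 → i ∈ V.U)
    (δ : σ → ℤ) (hδJ : ∀ i ∈ V.J, δ i = 0) (q : QZ) (hq : ∀ i, V'.ν i = V.ν i + δ i • q)
    (c : ℤ) (hc : ∀ α ∈ g.support, ∑ i, δ i * (α i : ℤ) = c)
    (P : (S : Type) → [CommRing S] → [Algebra k S] → S → Prop)
    (hP : ∀ {S S' : Type} [CommRing S] [Algebra k S] [CommRing S'] [Algebra k S']
      (φ : S →ₐ[k] S') (c : Chr QZ S') (s : S), P S s → P S' (chr c V.μ * φ s))
    (hP' : ∀ {S S' : Type} [CommRing S] [Algebra k S] [CommRing S'] [Algebra k S']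
      (φ : S →ₐ[k] S') (c : Chr QZ S') (s : S), P S s → P S' (chr c V'.μ * φ s))
    (hft : FT (TQ V P hP).F)
    (H : ∀ V₁ : TS (QZ × ℤ) g, V₁.μ.1 = V.μ → (c = 0 → V₁.μ.2 = 0) →
      ∃ hP₁ : ∀ {S S' : Type} [CommRing S] [Algebra k S] [CommRing S'] [Algebra k S']
        (φ : S →ₐ[k] S') (c : Chr (QZ × ℤ) S') (s : S), P S s → P S' (chr c V₁.μ * φ s),
        FT (TQ V₁ P hP₁).F) :
    χ.χ (TQ V P hP) = χ.χ (TQ V' P hP') := by
  classical
  obtain ⟨d, a, δ', hδ', had, ha1⟩ := bezout fun i : V.U => δ i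
  by_cases hd : d = 0
  · have h1 := tq_map V (AddMonoidHom.id QZ) V rfl rfl (fun i _ => rfl) P hP hP
    have h2 := tq_map V (AddMonoidHom.id QZ) V' hU hJ (fun i hi => by
      rw [hq]
      have : δ i = 0 := by rw [hδ' ⟨i, hi⟩, hd, mul_zero]
      rw [this, zero_smul, add_zero]
      rfl) P hP hP'
    exact χ.iso hft (h1.symm.trans h2)
  · -- the weights over QZ × ℤ
    let ε : σ → ℤ := fun i => if h : i ∈ V.U then δ' ⟨i, h⟩ else 0
    have hε : ∀ i ∈ V.U, δ i = ε i * d := by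
      intro i hi
      show δ i = (if h : i ∈ V.U then δ' ⟨i, h⟩ else 0) * d
      rw [dif_pos hi]
      exact hδ' ⟨i, hi⟩
    have hεc : ∀ α ∈ g.support, (∑ i, ε i * (α i : ℤ)) * d = c := by
      intro α hα
      rw [← hc α hα, Finset.sum_mul]
      refine Finset.sum_congr rfl fun i _ => ?_
      by_cases hi : i ∈ V.U
      · rw [hε i hi]
        ring
      · have : α i = 0 := by
          by_contra h0
          exact hi (hg α hα i h0)
        rw [this]
        simp
    have hεc' : ∀ α ∈ g.support, ∑ i, ε i * (α i : ℤ) = c / d := by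
      intro α hα
      rw [← hεc α hα, Int.mul_ediv_cancel _ hd]
    let V₁ : TS (QZ × ℤ) g :=
      { ν := fun i => (V.ν i, ε i)
        μ := (V.μ, c / d)
        hg := fun α hα => by
          have h1 := V.hg α hα
          rw [Finsupp.weight_apply, Finsupp.sum_fintype _ _ (fun i => by rw [zero_smul])] at h1 ⊢
          refine Prod.ext ?_ ?_
          · rw [Prod.fst_sum]
            exact h1
          · rw [Prod.snd_sum, ← hεc' α hα]
            refine Finset.sum_congr rfl fun i _ => ?_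
            show α i • ε i = _
            rw [nsmul_eq_mul, mul_comm]
        U := V.U
        J := V.J
        hJ := fun i hi => by
          refine Prod.ext (V.hJ i hi) ?_
          show ε i = 0
          by_cases hi' : i ∈ V.U
          · have h1 := hε i hi'
            rw [hδJ i hi] at h1
            rcases mul_eq_zero.1 h1.symm with h2 | h2
            · exact h2
            · exact absurd h2 hd
          · exact dif_neg hi' }
    obtain ⟨hP₁, hft₁⟩ := H V₁ rfl (fun h0 => by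
      show c / d = 0
      rw [h0, Int.zero_ediv])
    let ψ₁ : QZ × ℤ →+ QZ := AddMonoidHom.fst QZ ℤ
    let ψ₂ : QZ × ℤ →+ QZ := AddMonoidHom.fst QZ ℤ
      + (zmultiplesHom QZ (d • q)).comp (AddMonoidHom.snd QZ ℤ)
    have h1 := tq_map V₁ ψ₁ V rfl rfl (fun i _ => rfl) P hP₁ hP
    have h2 := tq_map V₁ ψ₂ V' hU hJ (fun i hi => by
      show V.ν i + ε i • (d • q) = V'.ν i
      rw [hq i, hε i hi, mul_smul]) P hP₁ hP'
    have h3 := χ.shift (TQ V₁ P hP₁) hft₁ (AddMonoidHom.snd QZ ℤ) (vfn V₁ P hP₁ a)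
      (fun S _ _ x => Units.isUnit _) (by
        show (∑ i : V.U, a i • ((V.ν i, ε i) : QZ × ℤ)).2 = 1
        rw [Prod.snd_sum, ← ha1 hd]
        refine Finset.sum_congr rfl fun i _ => ?_
        show a i • ε i = a i * δ' i
        have : ε i = δ' i := dif_pos i.2
        rw [this, smul_eq_mul]) (fun b => rfl) ψ₁ ψ₂ (d • q) (fun w => rfl)
      (fun _ => map_zero ψ₁) (fun _ => map_zero ψ₂)
    have h4 := χ.iso (hft₁.mapWt ψ₁) h1
    have h5 := χ.iso (hft₁.mapWt ψ₂) h2
    rw [← h4, ← h5]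
    exact h3

theorem weights (hFT : FTStmt) : WeightStmt := by
  intro k _ σ _ R _ L χ g V V' hU hJ hg δ hδJ q hq
  refine ⟨fun c hc => ?_, fun hc h h' => ?_⟩
  · exact weights_aux χ V V' hU hJ hg δ hδJ q hq c hc (fun S _ _ s => s = 0)
      (fun φ c s h => hP0 V φ c s h) (fun φ c s h => hP0 V' φ c s h) ((hFT k σ QZ).1 g V)
      (fun V₁ _ _ => ⟨fun φ c s h => hP0 V₁ φ c s h, (hFT k σ (QZ × ℤ)).1 g V₁⟩)
  · exact weights_aux χ V V' hU hJ hg δ hδJ q hq 0 hc (fun S _ _ s => s = 1)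
      (fun φ c s hs => hP1 V h φ c s hs) (fun φ c s hs => hP1 V' h' φ c s hs)
      ((hFT k σ QZ).2.1 g V h)
      (fun V₁ h1 h2 => by
        have hμ : V₁.μ = 0 := Prod.ext (h1.trans h) (h2 rfl)
        exact ⟨fun φ c s hs => hP1 V₁ hμ φ c s hs, (hFT k σ (QZ × ℤ)).2.1 g V₁ hμ⟩)

end Pool.Agent.Helper30_Simp.H39
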