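import Pool.Agent.Helper30_Simp.Stmts

/-!
# The classes of the tori of a cell
-/

set_option autoImplicit false
set_option linter.unusedVariables false
set_option linter.unusedSectionVars false

namespace Pool.Agent.Helper30_Simp.H39

open PowerSeries Finset Pool.Agent.Helper6_Mono Pool.Agent.Helper30_Simp

variable {k : Type} [Field k] {σ : Type} [Fintype σ] {g : MvPolynomial σ k}

/-- remove the coordinates in `T` -/
@[reducible] noncomputable def TS.rem (V : TS QZ g) (T : Finset σ) : TS QZ g where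
  ν := V.ν
  μ := V.μ
  hg := V.hg
  U := by classical exact V.U \ T
  J := V.J
  hJ := V.hJ

theorem TS.mem_rem (V : TS QZ g) (T : Finset σ) (l : σ) :
    l ∈ (TS.rem V T).U ↔ l ∈ V.U ∧ l ∉ T := by
  classical
  show l ∈ V.U \ T ↔ _
  rw [Finset.mem_sdiff]

variable {R : Type 1} [CommRing R] {L : Rˣ}

theorem split_all (hs : SplitStmt) (χ : SInv k (fun _ : σ => (0 : QZ)) L) (V : TS QZ g)
    (T : Finset σ) (hT : ∀ i ∈ T, i ∈ V.U ∧ i ∉ V.J ∧ ∀ α ∈ g.support, α i = 0) :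
    χ.χ (TT0 V) = ((L : R) - 1) ^ T.card * χ.χ (TT0 (TS.rem V T)) ∧
    ∀ h : V.μ = 0, χ.χ (TT1 V h) = ((L : R) - 1) ^ T.card * χ.χ (TT1 (TS.rem V T) h) := by
  classical
  induction T using Finset.induction_on with
  | empty =>
    have h1 : TS.rem V ∅ = V := by
      have : V.U \ ∅ = V.U := Finset.sdiff_empty
      obtain ⟨ν, μ, hg, U, J, hJ⟩ := V
      show TS.mk ν μ hg _ J hJ = _
      congr 1
    have h2 : ∀ V' : TS QZ g, V' = V → χ.χ (TT0 V) = χ.χ (TT0 V') ∧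
        ∀ (h : V.μ = 0) (h' : V'.μ = 0), χ.χ (TT1 V h) = χ.χ (TT1 V' h') := by
      rintro V' rfl
      exact ⟨rfl, fun h h' => rfl⟩
    rw [Finset.card_empty, pow_zero, one_mul]
    refine ⟨(h2 _ h1).1, fun h => ?_⟩
    rw [one_mul]
    exact (h2 _ h1).2 h h
  | insert a T ha ih =>
    obtain ⟨ih0, ih1⟩ := ih fun i hi => hT i (Finset.mem_insert_of_mem hi)
    obtain ⟨haU, haJ, hag⟩ := hT a (Finset.mem_insert_self a T)
    obtain ⟨s0, s1⟩ := hs k σ R L χ g (TS.rem V T) (TS.rem V (insert a T)) a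
      ((TS.mem_rem V T a).2 ⟨haU, ha⟩) haJ hag (fun l => rfl) (fun l => by
        rw [TS.mem_rem, TS.mem_rem, Finset.mem_insert]
        tauto) rfl
    rw [Finset.card_insert_of_notMem ha]
    refine ⟨?_, fun h => ?_⟩
    · rw [ih0, s0, pow_succ, mul_assoc]
    · rw [ih1 h, s1 h h, pow_succ, mul_assoc]

variable {f : MvPolynomial σ k} {I : Finset (σ →₀ ℕ)} {J : Finset σ} {u : σ → ℕ} {N : ℕ}

theorem mem_freeV {i : σ} : i ∈ freeV I J ↔ i ∉ J ∧ ∀ α ∈ I, α i = 0 := by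
  classical
  unfold freeV
  rw [Finset.mem_filter]
  simp

theorem CellS.le_of_not_free (h : CellS f.support I J u N) {i : σ} (hi : i ∉ freeV I J) :
    u i ≤ N := by
  rw [mem_freeV, not_and_or] at hi
  rcases hi with hi | hi
  · rw [not_not] at hi
    rw [(h.zero i).2 hi]
    exact Nat.zero_le _
  · push Not at hi
    obtain ⟨α, hα, hi⟩ := hi
    rw [← h.eq α hα]
    unfold dot
    calc u i ≤ u i * (α i : ℕ) := Nat.le_mul_of_pos_right _ (Nat.pos_of_ne_zero hi)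
      _ ≤ ∑ j, u j * ((α j : ℕ) : ℕ) :=
        Finset.single_le_sum (f := fun j => u j * ((α j : ℕ) : ℕ)) (fun j _ => Nat.zero_le _)
          (Finset.mem_univ i)

theorem CellS.sum_int (h : CellS f.support I J u N) {α : σ →₀ ℕ} (hα : α ∈ I) :
    ∑ i, (u i : ℤ) * (α i : ℤ) = N := by
  rw [← h.eq α hα]
  unfold dot
  push_cast
  rfl

theorem ytt (hw : WeightStmt) (hs : SplitStmt) : YttStmt := by
  intro k _ σ _ R _ L χ f I J u N m h hN
  classical
  -- the coordinates which are removed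
  obtain ⟨T, hTdef⟩ : ∃ T, T = (freeV I J).filter fun i => u i ≤ m := ⟨_, rfl⟩
  have hT : ∀ i ∈ T, i ∈ freeV I J ∧ u i ≤ m := by
    intro i hi
    rw [hTdef, Finset.mem_filter] at hi
    exact hi
  have hU : ∀ (ω : QZ) (l : σ), l ∈ (TSu h m ω).U ↔ u l ≤ m := by
    intro ω l
    show l ∈ univ.filter (fun i => u i ≤ m) ↔ _
    rw [Finset.mem_filter]
    simp
  have hT' : ∀ ω : QZ, ∀ i ∈ T, i ∈ (TSu h m ω).U ∧ i ∉ (TSu h m ω).J ∧
      ∀ α ∈ (part f I).support, α i = 0 := by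
    intro ω i hi
    obtain ⟨h1, h2⟩ := hT i hi
    rw [mem_freeV] at h1
    exact ⟨(hU ω i).2 h2, h1.1, fun α hα => h1.2 α (mem_of_mem_part_support hα)⟩
  have hUrem : ∀ (ω : QZ) (l : σ), l ∈ (TS.rem (TSu h m ω) T).U ↔ l ∉ freeV I J := by
    intro ω l
    rw [TS.mem_rem, hU, hTdef, Finset.mem_filter]
    constructor
    · rintro ⟨h1, h2⟩ h3
      exact h2 ⟨h3, h1⟩
    · intro h1
      exact ⟨(CellS.le_of_not_free h h1).trans hN, fun h2 => h1 h2.1⟩
  have hg : ∀ ω : QZ, ∀ α ∈ (part f I).support, ∀ i, α i ≠ 0 →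
      i ∈ (TS.rem (TSu h m ω) T).U := by
    intro ω α hα i hi
    rw [hUrem, mem_freeV]
    rintro ⟨-, h2⟩
    exact hi (h2 α (mem_of_mem_part_support hα))
  constructor
  · intro ω
    rw [(split_all hs χ (TSu h m ω) T (hT' ω)).1, hTdef]
    congr 1
    rw [← hTdef]
    refine (hw k σ R L χ (part f I) (TS.rem (TSu h m ω) T) (V0 f I J) ?_ rfl (hg ω)
      (fun i => -(u i : ℤ)) (fun i hi => ?_) ω (fun i => ?_)).1 (-(N : ℤ)) (fun α hα => ?_)
    · ext l
      rw [hUrem]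
      show l ∈ univ \ freeV I J ↔ _
      rw [Finset.mem_sdiff]
      simp
    · show -(u i : ℤ) = 0
      rw [(h.zero i).2 hi]
      rfl
    · show (0 : QZ) = u i • ω + (-(u i : ℤ)) • ω
      rw [neg_smul, natCast_zsmul, add_neg_cancel]
    · rw [← CellS.sum_int h (mem_of_mem_part_support hα), ← Finset.sum_neg_distrib]
      exact Finset.sum_congr rfl fun i _ => neg_mul _ _
  · intro hm hm0 ω hω hμ u₀ N₀ h₀ hN₀
    rw [(split_all hs χ (TSu h m ω) T (hT' ω)).2 hμ, hTdef]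
    congr 1
    rw [← hTdef]
    refine (hw k σ R L χ (part f I) (TS.rem (TSu h m ω) T) (V1 h₀ hN₀) ?_ rfl (hg ω)
      (fun i => (m : ℤ) * u₀ i - N₀ * u i) (fun i hi => ?_) (((1 : ℚ) / (m * N₀) : ℚ) : QZ)
      (fun i => ?_)).2 (fun α hα => ?_) hμ rfl
    · ext l
      rw [hUrem]
      show l ∈ univ \ freeV I J ↔ _
      rw [Finset.mem_sdiff]
      simp
    · show (m : ℤ) * u₀ i - N₀ * u i = 0
      rw [(h.zero i).2 hi, (h₀.zero i).2 hi]
      simp
    · show (((u₀ i : ℚ) / N₀ : ℚ) : QZ)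
        = u i • ω + ((m : ℤ) * u₀ i - N₀ * u i) • (((1 : ℚ) / (m * N₀) : ℚ) : QZ)
      rw [hω, ← AddCircle.coe_nsmul, ← AddCircle.coe_zsmul, ← AddCircle.coe_add]
      congr 1
      rw [nsmul_eq_mul, zsmul_eq_mul]
      have h1 : (m : ℚ) ≠ 0 := by exact_mod_cast hm0
      have h2 : (N₀ : ℚ) ≠ 0 := by exact_mod_cast hN₀
      push_cast
      field_simp
      ring
    · have hα' := mem_of_mem_part_support hα
      have h1 := CellS.sum_int h hα'
      have h2 := CellS.sum_int h₀ hα'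
      calc ∑ i, ((m : ℤ) * u₀ i - N₀ * u i) * (α i : ℤ)
          = (m : ℤ) * ∑ i, (u₀ i : ℤ) * (α i : ℤ) - N₀ * ∑ i, (u i : ℤ) * (α i : ℤ) := by
            rw [Finset.mul_sum, Finset.mul_sum, ← Finset.sum_sub_distrib]
            exact Finset.sum_congr rfl fun i _ => by ring
        _ = 0 := by rw [h1, h2, ← hm]; ring

end Pool.Agent.Helper30_Simp.H39
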