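import Pool.Agent.Helper30_Simp.Stmts

/-!
# A coordinate which does not occur in the equation
-/

set_option autoImplicit false
set_option linter.unusedVariables false
set_option linter.unusedSectionVars false

namespace Pool.Agent.Helper30_Simp.H39

open PowerSeries Finset Pool.Agent.Helper6_Mono Pool.Agent.Helper30_Simp

variable {k : Type} [Field k] {σ : Type} [Fintype σ] {W : Type} [AddCommGroup W]

theorem aeval_congr_supp {g : MvPolynomial σ k} {S : Type} [CommRing S] [Algebra k S]
    {x y : σ → S} (h : ∀ α ∈ g.support, ∀ l, α l ≠ 0 → x l = y l) :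
    MvPolynomial.aeval x g = MvPolynomial.aeval y g := by
  rw [MvPolynomial.aeval_def, MvPolynomial.aeval_def, MvPolynomial.eval₂_eq, MvPolynomial.eval₂_eq]
  refine Finset.sum_congr rfl fun α hα => ?_
  congr 1
  refine Finset.prod_congr rfl fun l hl => ?_
  rw [h α hα l (Finsupp.mem_support_iff.1 hl)]

variable {g : MvPolynomial σ k}

/-- points of the torus with a condition on the value of `g` -/
@[reducible] noncomputable def TQ (V : TS W g)
    (P : (S : Type) → [CommRing S] → [Algebra k S] → S → Prop)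
    (hP : ∀ {S S' : Type} [CommRing S] [Algebra k S] [CommRing S'] [Algebra k S']
      (φ : S →ₐ[k] S') (c : Chr W S') (s : S), P S s → P S' (chr c V.μ * φ s)) : OverS k σ W :=
  V.A.sub (fun S _ _ x => (∀ i, (i ∈ V.U → IsUnit (x i)) ∧ (i ∉ V.U → x i = 0)) ∧
      P S (MvPolynomial.aeval x g))
    (fun {S S'} _ _ _ _ φ c x hx => ⟨fun i => ⟨fun h => (chr_isUnit c _).mul
        (((hx.1 i).1 h).map φ), fun h => by
        show chr c (V.ν i) * φ (x i) = 0
        rw [(hx.1 i).2 h, map_zero, mul_zero]⟩, by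
      show P S' (MvPolynomial.aeval (fun i => chr c (V.ν i) * φ (x i)) g)
      rw [aeval_twist V]
      exact hP φ c _ hx.2⟩)

theorem hP0 (V : TS W g) {S S' : Type} [CommRing S] [Algebra k S] [CommRing S'] [Algebra k S']
    (φ : S →ₐ[k] S') (c : Chr W S') (s : S) (h : s = 0) : chr c V.μ * φ s = 0 := by
  rw [h, map_zero, mul_zero]

theorem hP1 (V : TS W g) (hμ : V.μ = 0) {S S' : Type} [CommRing S] [Algebra k S] [CommRing S']
    [Algebra k S'] (φ : S →ₐ[k] S') (c : Chr W S') (s : S) (h : s = 1) : chr c V.μ * φ s = 1 := by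
  rw [h, map_one, mul_one, hμ, chr_zero]

theorem TT0_eq (V : TS W g) : TT0 V = TQ V (fun S _ _ s => s = 0) (fun φ c s h => hP0 V φ c s h) :=
  rfl

theorem TT1_eq (V : TS W g) (hμ : V.μ = 0) :
    TT1 V hμ = TQ V (fun S _ _ s => s = 1) (fun φ c s h => hP1 V hμ φ c s h) := rfl

theorem split_iso (V V' : TS W g) (i : σ)
    (hi : i ∈ V.U) (hi' : i ∉ V.J) (hg : ∀ α ∈ g.support, α i = 0)
    (hν : ∀ l, V'.ν l = V.ν l) (hU : ∀ l, l ∈ V'.U ↔ l ∈ V.U ∧ l ≠ i) (hJ : V'.J = V.J)
    (P : (S : Type) → [CommRing S] → [Algebra k S] → S → Prop)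
    (hP : ∀ {S S' : Type} [CommRing S] [Algebra k S] [CommRing S'] [Algebra k S']
      (φ : S →ₐ[k] S') (c : Chr W S') (s : S), P S s → P S' (chr c V.μ * φ s))
    (hP' : ∀ {S S' : Type} [CommRing S] [Algebra k S] [CommRing S'] [Algebra k S']
      (φ : S →ₐ[k] S') (c : Chr W S') (s : S), P S s → P S' (chr c V'.μ * φ s)) :
    OIso (TQ V P hP) ((TQ V' P hP').times (GF.gm k (V.ν i))) := by
  classical
  have hae : ∀ {S : Type} [CommRing S] [Algebra k S] (x : σ → S) (a : S),
      MvPolynomial.aeval (fun l => if l = i then a else x l) g = MvPolynomial.aeval x g := by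
    intro S _ _ x a
    refine aeval_congr_supp fun α hα l hl => ?_
    rw [if_neg]
    rintro rfl
    exact hl (hg α hα)
  refine OIso.mk' (fun S _ _ x => (⟨fun l => if l = i then 0 else x.1 l, fun l => ⟨fun h => ?_,
      fun h => ?_⟩, ?_⟩, ⟨x.1 i, (x.2.1 i).1 hi⟩))
    (fun S _ _ y => ⟨fun l => if l = i then y.2.1 else y.1.1 l, fun l => ⟨fun h => ?_,
      fun h => ?_⟩, ?_⟩) ?_ ?_ ?_ ?_
  · rw [hU] at h
    show IsUnit (if l = i then 0 else x.1 l)
    rw [if_neg h.2]
    exact (x.2.1 l).1 h.1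
  · show (if l = i then 0 else x.1 l) = 0
    split_ifs with hl
    · rfl
    · rw [hU] at h
      exact (x.2.1 l).2 fun h' => h ⟨h', hl⟩
  · show P S (MvPolynomial.aeval (fun l => if l = i then 0 else x.1 l) g)
    rw [hae]
    exact x.2.2
  · show IsUnit (if l = i then y.2.1 else y.1.1 l)
    split_ifs with hl
    · exact y.2.2
    · exact (y.1.2.1 l).1 ((hU l).2 ⟨h, hl⟩)
  · show (if l = i then y.2.1 else y.1.1 l) = 0
    rw [if_neg (by rintro rfl; exact h hi)]
    exact (y.1.2.1 l).2 fun h' => h ((hU l).1 h').1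
  · show P S (MvPolynomial.aeval (fun l => if l = i then y.2.1 else y.1.1 l) g)
    rw [hae]
    exact y.1.2.2
  · intro S _ _ x
    refine Subtype.ext (funext fun l => ?_)
    show (if l = i then x.1 i else if l = i then 0 else x.1 l) = x.1 l
    split_ifs with hl
    · rw [hl]
    · rfl
  · intro S _ _ y
    refine Prod.ext (Subtype.ext (funext fun l => ?_)) (Subtype.ext ?_)
    · show (if l = i then 0 else if l = i then y.2.1 else y.1.1 l) = y.1.1 l
      split_ifs with hl
      · rw [hl]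
        exact ((y.1.2.1 i).2 fun h' => ((hU i).1 h').2 rfl).symm
      · rfl
    · show (if i = i then y.2.1 else y.1.1 i) = y.2.1
      rw [if_pos rfl]
  · intro S S' _ _ _ _ φ c x
    refine Prod.ext (Subtype.ext (funext fun l => ?_)) (Subtype.ext rfl)
    show (if l = i then 0 else chr c (V.ν l) * φ (x.1 l))
      = chr c (V'.ν l) * φ (if l = i then 0 else x.1 l)
    split_ifs with hl
    · rw [map_zero, mul_zero]
    · rw [hν]
  · intro S _ _ x b
    show (if b ∈ V'.J then (if b = i then 0 else x.1 b) else 0) = if b ∈ V.J then x.1 b else 0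
    rw [hJ]
    split_ifs with h1 h2
    · rw [h2] at h1
      exact absurd h1 hi'
    · rfl
    · rfl

theorem split (hFT : FTStmt) : SplitStmt := by
  intro k _ σ _ R _ L χ g V V' i hi hi' hg hν hU hJ
  refine ⟨?_, fun h h' => ?_⟩
  · have hiso := split_iso V V' i hi hi' hg hν hU hJ (fun S _ _ s => s = 0)
      (fun φ c s h => hP0 V φ c s h) (fun φ c s h => hP0 V' φ c s h)
    have h1 := χ.iso ((hFT k σ QZ).1 g V) hiso
    have h2 := χ.times_gm ((hFT k σ QZ).1 g V') (V.ν i)
    exact h1.trans h2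
  · have hiso := split_iso V V' i hi hi' hg hν hU hJ (fun S _ _ s => s = 1)
      (fun φ c s hs => hP1 V h φ c s hs) (fun φ c s hs => hP1 V' h' φ c s hs)
    have h1 := χ.iso ((hFT k σ QZ).2.1 g V h) hiso
    have h2 := χ.times_gm ((hFT k σ QZ).2.1 g V' h') (V.ν i)
    exact h1.trans h2

end Pool.Agent.Helper30_Simp.H39
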